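import Mathlib

/-!
RECTANGLES, absolute convergence of the spectral sum WITHOUT any bound of the ratios `γ k`.

`p M = ∑ μ k d k ^ M` (all top sites joined to the bottom), `Q M = ∑ γ k μ k d k ^ M` (crossing),
`B M = ∑ γ k ^ 2 L k μ k d k ^ M` (the third, positive, functional), `μ k ≥ 0`, `L k ≥ L k0 > 0`.
If `u Q M' ≤ p M'` and `g Q M' ≤ B M'` for all large `M'` and `p M * P ≤ u`, `B M * P ≤ g` (all four by
the FKG inequality), then `∑ |γ k μ k| |d k| ^ M ≤ 1 / P`.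
-/

set_option autoImplicit false

namespace H86Rect
open Finset Filter Topology

variable {ι : Type*} [Fintype ι]

/-- the dominant term of a spectral sum -/
theorem dominant {a d : ι → ℝ} {k0 : ι} (h0 : 0 < d k0) (hdom : ∀ k, k ≠ k0 → |d k| < d k0) :
    Tendsto (fun M : ℕ => (∑ k, a k * d k ^ M) / d k0 ^ M) atTop (𝓝 (a k0)) := by
  classical
  have h1 : ∀ k ∈ (univ : Finset ι), Tendsto (fun M : ℕ => a k * (d k / d k0) ^ M) atTop
      (𝓝 (if k = k0 then a k0 else 0)) := by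
    intro k _
    by_cases hk : k = k0
    · subst hk
      rw [if_pos rfl, div_self h0.ne']
      simp
    · rw [if_neg hk]
      have h2 : |d k / d k0| < 1 := by
        rw [abs_div, abs_of_pos h0, div_lt_one h0]
        exact hdom k hk
      have := (tendsto_pow_atTop_nhds_zero_of_abs_lt_one h2).const_mul (a k)
      simpa using this
  have h3 := tendsto_finsetSum (univ : Finset ι) h1
  rw [Finset.sum_ite_eq' univ k0 (fun _ => a k0), if_pos (mem_univ _)] at h3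
  refine h3.congr fun M => ?_
  rw [Finset.sum_div]
  refine Finset.sum_congr rfl fun k _ => ?_
  rw [div_pow]
  ring

/-- an eventual inequality of spectral sums holds for the dominant coefficients -/
theorem dom_le {a b d : ι → ℝ} {k0 : ι} (h0 : 0 < d k0) (hdom : ∀ k, k ≠ k0 → |d k| < d k0) {u : ℝ}
    (hpq : ∀ᶠ M : ℕ in atTop, u * ∑ k, a k * d k ^ M ≤ ∑ k, b k * d k ^ M) : u * a k0 ≤ b k0 := by
  have h1 := (dominant (a := a) h0 hdom).const_mul u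
  have h2 := dominant (a := b) h0 hdom
  refine le_of_tendsto_of_tendsto h1 h2 ?_
  filter_upwards [hpq] with M hM
  rw [← mul_div_assoc]
  exact div_le_div_of_nonneg_right hM (pow_pos h0 M).le

/-- **Cauchy-Schwarz step** -/
theorem cs {μ γ d L : ι → ℝ} {k0 : ι} (hμ : ∀ k, 0 ≤ μ k) (hL0 : 0 < L k0) (hL : ∀ k, L k0 ≤ L k)
    {M : ℕ} (hM : ∀ k, 0 ≤ d k ^ M) :
    (∑ k, |γ k * μ k| * |d k| ^ M) ^ 2 * L k0 ≤
      (∑ k, γ k ^ 2 * L k * μ k * d k ^ M) * ∑ k, μ k * d k ^ M := by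
  have hLp : ∀ k, 0 < L k := fun k => lt_of_lt_of_le hL0 (hL k)
  have h1 : (∑ k, |γ k * μ k| * |d k| ^ M) ^ 2 ≤
      (∑ k, γ k ^ 2 * L k * μ k * d k ^ M) * ∑ k, μ k * d k ^ M / L k := by
    refine Finset.sum_sq_le_sum_mul_sum_of_sq_eq_mul univ (fun k _ => ?_) (fun k _ => ?_) fun k _ => ?_
    · have := hμ k; have := hM k; have := (hLp k).le; positivity
    · exact div_nonneg (mul_nonneg (hμ k) (hM k)) (hLp k).le
    · have h2 : |d k| ^ M = d k ^ M := by rw [← abs_pow, abs_of_nonneg (hM k)]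
      have h3 : |γ k * μ k| ^ 2 = (γ k * μ k) ^ 2 := sq_abs _
      rw [h2, mul_pow, h3]
      field_simp [(hLp k).ne']
  have h2 : ∑ k, μ k * d k ^ M / L k ≤ (∑ k, μ k * d k ^ M) / L k0 := by
    rw [Finset.sum_div]
    refine Finset.sum_le_sum fun k _ => ?_
    exact div_le_div_of_nonneg_left (mul_nonneg (hμ k) (hM k)) hL0 (hL k)
  have h3 : 0 ≤ ∑ k, γ k ^ 2 * L k * μ k * d k ^ M := by
    refine Finset.sum_nonneg fun k _ => ?_
    have := hμ k; have := hM k; have := (hLp k).le; positivity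
  calc (∑ k, |γ k * μ k| * |d k| ^ M) ^ 2 * L k0
      ≤ ((∑ k, γ k ^ 2 * L k * μ k * d k ^ M) * ∑ k, μ k * d k ^ M / L k) * L k0 :=
        mul_le_mul_of_nonneg_right h1 hL0.le
    _ ≤ ((∑ k, γ k ^ 2 * L k * μ k * d k ^ M) * ((∑ k, μ k * d k ^ M) / L k0)) * L k0 :=
        mul_le_mul_of_nonneg_right (mul_le_mul_of_nonneg_left h2 h3) hL0.le
    _ = (∑ k, γ k ^ 2 * L k * μ k * d k ^ M) * ∑ k, μ k * d k ^ M := by
        field_simp

/-- **the absolute spectral sum is at most `1 / P`** -/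
theorem abs_sum_le_inv {μ γ d L : ι → ℝ} {k0 : ι} (h0 : 0 < d k0)
    (hdom : ∀ k, k ≠ k0 → |d k| < d k0)
    (hμ : ∀ k, 0 ≤ μ k) (hμ0 : 0 < μ k0) (hγ0 : 0 < γ k0)
    (hL0 : 0 < L k0) (hL : ∀ k, L k0 ≤ L k) {M : ℕ} (hM : ∀ k, 0 ≤ d k ^ M)
    {u g P : ℝ} (hP : 0 < P)
    (hup : (∑ k, μ k * d k ^ M) * P ≤ u)
    (hpq : ∀ᶠ M' : ℕ in atTop, u * ∑ k, γ k * μ k * d k ^ M' ≤ ∑ k, μ k * d k ^ M')
    (hgB : (∑ k, γ k ^ 2 * L k * μ k * d k ^ M) * P ≤ g)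
    (hBq : ∀ᶠ M' : ℕ in atTop, g * ∑ k, γ k * μ k * d k ^ M' ≤
      ∑ k, γ k ^ 2 * L k * μ k * d k ^ M') :
    ∑ k, |γ k * μ k| * |d k| ^ M ≤ 1 / P := by
  have h1 : u * (γ k0 * μ k0) ≤ μ k0 := dom_le (a := fun k => γ k * μ k) (b := μ) h0 hdom hpq
  have h2 : g * (γ k0 * μ k0) ≤ γ k0 ^ 2 * L k0 * μ k0 :=
    dom_le (a := fun k => γ k * μ k) (b := fun k => γ k ^ 2 * L k * μ k) h0 hdom hBq
  have h3 : u * γ k0 ≤ 1 := by
    have : (u * γ k0) * μ k0 ≤ 1 * μ k0 := by rw [one_mul, mul_assoc]; exact h1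
    exact le_of_mul_le_mul_right this hμ0
  have h4 : g ≤ γ k0 * L k0 := by
    have : g * (γ k0 * μ k0) ≤ (γ k0 * L k0) * (γ k0 * μ k0) := by
      refine h2.trans (le_of_eq ?_); ring
    exact le_of_mul_le_mul_right this (mul_pos hγ0 hμ0)
  have hp0 : 0 ≤ ∑ k, μ k * d k ^ M := Finset.sum_nonneg fun k _ => mul_nonneg (hμ k) (hM k)
  have hB0 : 0 ≤ ∑ k, γ k ^ 2 * L k * μ k * d k ^ M := by
    refine Finset.sum_nonneg fun k _ => ?_
    have := hμ k; have := hM k; have := (lt_of_lt_of_le hL0 (hL k)).le; positivity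
  have h5 := cs (γ := γ) hμ hL0 hL hM
  have hA0 : 0 ≤ ∑ k, |γ k * μ k| * |d k| ^ M := Finset.sum_nonneg fun k _ => by positivity
  have h6 : (∑ k, μ k * d k ^ M) * P ≤ 1 / γ k0 := by
    refine hup.trans ?_
    rw [le_div_iff₀ hγ0]; exact h3
  have h7 : (∑ k, γ k ^ 2 * L k * μ k * d k ^ M) * P ≤ γ k0 * L k0 := hgB.trans h4
  have h8 : (∑ k, |γ k * μ k| * |d k| ^ M) ^ 2 * L k0 * P ^ 2 ≤ L k0 := by
    calc (∑ k, |γ k * μ k| * |d k| ^ M) ^ 2 * L k0 * P ^ 2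
        ≤ ((∑ k, γ k ^ 2 * L k * μ k * d k ^ M) * ∑ k, μ k * d k ^ M) * P ^ 2 :=
          mul_le_mul_of_nonneg_right h5 (by positivity)
      _ = ((∑ k, γ k ^ 2 * L k * μ k * d k ^ M) * P) * ((∑ k, μ k * d k ^ M) * P) := by ring
      _ ≤ (γ k0 * L k0) * (1 / γ k0) :=
          mul_le_mul h7 h6 (mul_nonneg hp0 hP.le) (mul_pos hγ0 hL0).le
      _ = L k0 := by field_simp
  have h9 : ((∑ k, |γ k * μ k| * |d k| ^ M) * P) ^ 2 ≤ 1 ^ 2 := by
    have : ((∑ k, |γ k * μ k| * |d k| ^ M) * P) ^ 2 * L k0 ≤ 1 ^ 2 * L k0 := by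
      calc ((∑ k, |γ k * μ k| * |d k| ^ M) * P) ^ 2 * L k0
          = (∑ k, |γ k * μ k| * |d k| ^ M) ^ 2 * L k0 * P ^ 2 := by ring
        _ ≤ L k0 := h8
        _ = 1 ^ 2 * L k0 := by ring
    exact le_of_mul_le_mul_right this hL0
  rw [le_div_iff₀ hP]
  exact (abs_le_of_sq_le_sq' h9 zero_le_one).2

end H86Rect
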